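import Pool.Agent.Y360.RR.Stm

/-!
# Y360-RR, task MASS: localisation of the mass

`t_MASS : S_BLOCK → S_TRACE → S_PROD → S_LIP → S_CF → S_MASS`.
-/

set_option autoImplicit false
set_option maxHeartbeats 400000

namespace Pool.Agent.Y691.RR

open Finset Filter Topology Pool.Agent.Y360.RR

/-! ### the kernel -/

lemma f_ge (s θ : ℝ) : 2 * Real.cosh s - 2 ≤ f s θ := by
  unfold f
  linarith [Real.cos_le_one (2 * Real.pi * θ)]

lemma f_pos {s : ℝ} (hs : 0 < s) (θ : ℝ) : 0 < f s θ := by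
  have h1 : 1 < Real.cosh s := Real.one_lt_cosh.2 hs.ne'
  linarith [f_ge s θ]

lemma f_zero (s : ℝ) : f s 0 = 2 * Real.cosh s - 2 := by
  unfold f
  rw [mul_zero, Real.cos_zero]
  ring

/-- the products -/
noncomputable def P (t s : ℝ) (g : ℕ) : ℝ := ∏ i ∈ range g, (f s ((i + 1) * t))⁻¹

lemma P_pos {t s : ℝ} (hs : 0 < s) (g : ℕ) : 0 < P t s g :=
  prod_pos fun _ _ => inv_pos.2 (f_pos hs _)

/-- STEP 1 -/
lemma step1 {t s : ℝ} (hs : 0 < s) (hsum : Summable (P t s)) (q : ℕ)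
    (hblk : ∀ θ : ℝ, Real.log 2 ≤ ∑ i ∈ range q, Real.log (f s (θ + i * t))) :
    ∑' g, P t s g ≤ 2 * ∑ g ∈ range q, P t s g := by
  have h1 : ∀ g, P t s (g + q) ≤ (1 / 2) * P t s g := by
    intro g
    have e1 : P t s (g + q) = P t s g * ∏ i ∈ range q, (f s (((g + i : ℕ) + 1) * t))⁻¹ := by
      unfold P
      rw [prod_range_add]
    have h2 := hblk ((g + 1) * t)
    have e2 : ∀ i : ℕ, ((g : ℝ) + 1) * t + i * t = (((g + i : ℕ) : ℝ) + 1) * t := by
      intro i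
      push_cast
      ring
    simp only [e2] at h2
    rw [← Real.log_prod (fun i _ => (f_pos hs _).ne')] at h2
    have h3 : (2 : ℝ) ≤ ∏ i ∈ range q, f s (((g + i : ℕ) + 1) * t) :=
      (Real.log_le_log_iff two_pos (prod_pos fun i _ => f_pos hs _)).1 h2
    rw [e1, prod_inv_distrib, mul_comm]
    refine mul_le_mul_of_nonneg_right ?_ (P_pos hs g).le
    rw [one_div]
    exact inv_anti₀ two_pos h3
  have h2 := hsum.sum_add_tsum_nat_add q
  have h3 : ∑' g, P t s (g + q) ≤ ∑' g, (1 / 2) * P t s g :=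
    ((summable_nat_add_iff q).2 hsum).tsum_le_tsum h1 (hsum.mul_left _)
  rw [tsum_mul_left] at h3
  linarith

/-- the product over the grid without the point `0` -/
lemma grid (hP : S_PROD) {m : ℕ} {p : ℤ} (hc : IsCoprime p ((m + 1 : ℕ) : ℤ)) {s : ℝ} (hs : 0 < s) :
    ∏ i ∈ range m, f s ((i + 1) * (p / ((m + 1 : ℕ) : ℝ))) =
      (2 * Real.cosh ((m + 1 : ℕ) * s) - 2) / (2 * Real.cosh s - 2) := by
  have h := hP (m + 1) p (by omega) hc s 0
  rw [prod_range_succ', mul_zero, f_zero] at h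
  have e : f s (0 + ((0 : ℕ) : ℝ) * (p / ((m + 1 : ℕ) : ℝ))) = 2 * Real.cosh s - 2 := by
    rw [Nat.cast_zero, zero_mul, add_zero, f_zero]
  rw [e] at h
  have h1 : 1 < Real.cosh s := Real.one_lt_cosh.2 hs.ne'
  rw [eq_div_iff (by linarith), ← h]
  congr 1
  refine prod_congr rfl fun i _ => ?_
  push_cast
  rw [zero_add]

/-- STEP 2, the ratios -/
lemma ratio (hP : S_PROD) (hL : S_LIP) {t δ s₁ s₂ : ℝ} {m : ℕ} {p : ℤ}
    (hc : IsCoprime p ((m + 1 : ℕ) : ℤ)) (h1 : 0 < s₁) (h12 : s₁ ≤ s₂) (hδ : |((m + 1 : ℕ) : ℝ) * t - p| ≤ δ) :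
    ∏ i ∈ range m, (f s₂ ((i + 1) * t) / f s₁ ((i + 1) * t)) ≤
      ((2 * Real.cosh ((m + 1 : ℕ) * s₂) - 2) / (2 * Real.cosh s₂ - 2) /
        ((2 * Real.cosh ((m + 1 : ℕ) * s₁) - 2) / (2 * Real.cosh s₁ - 2))) ^
          Real.exp (2 * Real.pi / s₁ * δ) := by
  have h2 : 0 < s₂ := h1.trans_le h12
  have hδ0 : 0 ≤ δ := (abs_nonneg _).trans hδ
  rw [← grid hP hc h2, ← grid hP hc h1, ← prod_div_distrib,
    ← Real.finsetProd_rpow _ _ (fun i _ => (div_pos (f_pos h2 _) (f_pos h1 _)).le)]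
  refine prod_le_prod (fun i _ => (div_pos (f_pos h2 _) (f_pos h1 _)).le) fun i hi => ?_
  rw [mem_range] at hi
  set κ : ℝ := 2 * Real.cosh s₂ - 2 * Real.cosh s₁ with hκ
  have hκ0 : 0 ≤ κ := by
    have : Real.cosh s₁ ≤ Real.cosh s₂ := by
      rw [Real.cosh_le_cosh, abs_of_pos h1, abs_of_pos h2]
      exact h12
    linarith
  have e : ∀ θ : ℝ, f s₂ θ / f s₁ θ = 1 + κ / f s₁ θ := by
    intro θ
    have : f s₂ θ = f s₁ θ + κ := by
      rw [hκ]
      unfold f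
      ring
    rw [this, add_div, div_self (f_pos h1 _).ne']
  rw [e, e]
  set φ : ℝ := (i + 1) * t with hφ
  set φ' : ℝ := (i + 1) * (p / ((m + 1 : ℕ) : ℝ)) with hφ'
  set E : ℝ := Real.exp (2 * Real.pi / s₁ * δ) with hE
  have hE1 : 1 ≤ E := Real.one_le_exp (by positivity)
  have hdist : |φ - φ'| ≤ δ := by
    have hm : (0 : ℝ) < ((m + 1 : ℕ) : ℝ) := by positivity
    have e3 : φ - φ' = (i + 1) / ((m + 1 : ℕ) : ℝ) * (((m + 1 : ℕ) : ℝ) * t - p) := by
      rw [hφ, hφ']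
      field_simp
    have h4 : ((i : ℝ) + 1) / ((m + 1 : ℕ) : ℝ) ≤ 1 := by
      rw [div_le_one hm]
      have : i + 1 ≤ m + 1 := by omega
      exact_mod_cast this
    rw [e3, abs_mul, abs_of_nonneg (by positivity)]
    calc ((i : ℝ) + 1) / ((m + 1 : ℕ) : ℝ) * |((m + 1 : ℕ) : ℝ) * t - p| ≤ 1 * δ := by gcongr
      _ = δ := one_mul _
  have hlog := hL s₁ h1 φ' (φ - φ')
  rw [add_sub_cancel] at hlog
  have h5 : Real.log (f s₁ φ') - Real.log (f s₁ φ) ≤ 2 * Real.pi / s₁ * δ := by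
    have := (abs_le.1 hlog).1
    have h6 : 2 * Real.pi / s₁ * |φ - φ'| ≤ 2 * Real.pi / s₁ * δ := by
      have : 0 < Real.pi := Real.pi_pos
      gcongr
    linarith
  have h7 : f s₁ φ' ≤ E * f s₁ φ := by
    rw [← Real.log_le_log_iff (f_pos h1 _) (mul_pos (by positivity) (f_pos h1 _)),
      Real.log_mul (by positivity) (f_pos h1 _).ne', hE, Real.log_exp]
    linarith
  have h8 : κ / f s₁ φ ≤ E * (κ / f s₁ φ') := by
    rw [← mul_div_assoc, div_le_div_iff₀ (f_pos h1 _) (f_pos h1 _)]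
    calc κ * f s₁ φ' ≤ κ * (E * f s₁ φ) := by gcongr
      _ = E * κ * f s₁ φ := by ring
  have h9 : 0 ≤ κ / f s₁ φ' := div_nonneg hκ0 (f_pos h1 _).le
  calc 1 + κ / f s₁ φ ≤ 1 + E * (κ / f s₁ φ') := by linarith
    _ ≤ (1 + κ / f s₁ φ') ^ E := one_add_mul_self_le_rpow_one_add (by linarith) hE1

/-- `2 cosh (2 s) - 2 ≥ 4 (2 cosh s - 2)` -/
lemma cosh_two (s : ℝ) : 4 * (2 * Real.cosh s - 2) ≤ 2 * Real.cosh (2 * s) - 2 := by
  have h1 := Real.one_le_cosh s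
  have h2 := Real.cosh_two_mul s
  have h3 := Real.cosh_sq s
  have h4 : Real.sinh s ^ 2 = Real.cosh s ^ 2 - 1 := by linarith
  rw [h2, h4]
  nlinarith

lemma cosh_sixteen (s : ℝ) : 256 * (2 * Real.cosh s - 2) ≤ 2 * Real.cosh (16 * s) - 2 := by
  have h1 := cosh_two s
  have h2 := cosh_two (2 * s)
  have h3 := cosh_two (2 * (2 * s))
  have h4 := cosh_two (2 * (2 * (2 * s)))
  have e : 2 * (2 * (2 * (2 * s))) = 16 * s := by ring
  rw [e] at h4
  linarith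

/-- the bound of `R` -/
lemma R_le {c₁ s₁ : ℝ} (hc : 10 ≤ c₁) (hs : 0 < s₁) :
    (2 * Real.cosh (16 * c₁) - 2) / (2 * Real.cosh (16 * s₁) - 2) /
        ((2 * Real.cosh c₁ - 2) / (2 * Real.cosh s₁ - 2)) ≤ Real.exp (15 * c₁) / 128 := by
  have a1 : 2 * Real.cosh (16 * c₁) - 2 ≤ Real.exp (16 * c₁) := by
    rw [Real.cosh_eq]
    have : Real.exp (-(16 * c₁)) ≤ 1 := Real.exp_le_one_iff.2 (by linarith)
    linarith
  have a2 : Real.exp c₁ / 2 ≤ 2 * Real.cosh c₁ - 2 := by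
    rw [Real.cosh_eq]
    have h1 := Real.add_one_le_exp c₁
    have h2 := Real.exp_pos (-c₁)
    linarith
  have a3 := cosh_sixteen s₁
  have a4 : 1 < Real.cosh s₁ := Real.one_lt_cosh.2 hs.ne'
  have a5 : 0 < Real.exp c₁ := Real.exp_pos _
  have b1 : 0 < 2 * Real.cosh s₁ - 2 := by linarith
  have b2 : 0 < 2 * Real.cosh c₁ - 2 := by linarith
  have b3 : 0 < 2 * Real.cosh (16 * s₁) - 2 := by linarith
  have e1 : Real.exp (16 * c₁) = Real.exp (15 * c₁) * Real.exp c₁ := by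
    rw [← Real.exp_add]
    ring_nf
  have e2 : (2 * Real.cosh (16 * c₁) - 2) / (2 * Real.cosh (16 * s₁) - 2) /
        ((2 * Real.cosh c₁ - 2) / (2 * Real.cosh s₁ - 2)) =
      ((2 * Real.cosh (16 * c₁) - 2) / (2 * Real.cosh c₁ - 2)) *
        ((2 * Real.cosh s₁ - 2) / (2 * Real.cosh (16 * s₁) - 2)) := by
    field_simp
  have c1 : (2 * Real.cosh (16 * c₁) - 2) / (2 * Real.cosh c₁ - 2) ≤ 2 * Real.exp (15 * c₁) := by
    rw [div_le_iff₀ b2]
    have : 2 * Real.exp (15 * c₁) * (Real.exp c₁ / 2) ≤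
        2 * Real.exp (15 * c₁) * (2 * Real.cosh c₁ - 2) := by gcongr
    have e3 : 2 * Real.exp (15 * c₁) * (Real.exp c₁ / 2) = Real.exp (16 * c₁) := by
      rw [e1]
      ring
    linarith
  have c2 : (2 * Real.cosh s₁ - 2) / (2 * Real.cosh (16 * s₁) - 2) ≤ 1 / 256 := by
    rw [div_le_div_iff₀ b3 (by norm_num)]
    linarith
  rw [e2]
  calc ((2 * Real.cosh (16 * c₁) - 2) / (2 * Real.cosh c₁ - 2)) *
        ((2 * Real.cosh s₁ - 2) / (2 * Real.cosh (16 * s₁) - 2)) ≤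
        (2 * Real.exp (15 * c₁)) * (1 / 256) := by
        refine mul_le_mul c1 c2 (div_nonneg b1.le b3.le) (by positivity)
    _ = Real.exp (15 * c₁) / 128 := by ring

/-- STEP 2, the sums -/
lemma sums_le {t s₁ s₂ : ℝ} (h1 : 0 < s₁) (h12 : s₁ ≤ s₂) (m : ℕ) :
    ∑ g ∈ range (m + 1), P t s₁ g ≤
      (∏ i ∈ range m, (f s₂ ((i + 1) * t) / f s₁ ((i + 1) * t))) *
        ∑ g ∈ range (m + 1), P t s₂ g := by
  have h2 : 0 < s₂ := h1.trans_le h12
  rw [mul_sum]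
  refine sum_le_sum fun g hg => ?_
  rw [mem_range] at hg
  set r : ℕ → ℝ := fun i => f s₂ ((i + 1) * t) / f s₁ ((i + 1) * t) with hr
  have hr0 : ∀ i, 0 < r i := fun i => div_pos (f_pos h2 _) (f_pos h1 _)
  have hr1 : ∀ i, 1 ≤ r i := by
    intro i
    rw [hr]
    beta_reduce
    rw [one_le_div (f_pos h1 _)]
    have : Real.cosh s₁ ≤ Real.cosh s₂ := by
      rw [Real.cosh_le_cosh, abs_of_pos h1, abs_of_pos h2]
      exact h12
    unfold f
    linarith
  have hmono : Monotone (fun g => ∏ i ∈ range g, r i) := by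
    refine monotone_nat_of_le_succ fun g => ?_
    rw [prod_range_succ]
    exact le_mul_of_one_le_right (prod_pos fun i _ => hr0 i).le (hr1 g)
  have e : P t s₁ g = (∏ i ∈ range g, r i) * P t s₂ g := by
    unfold P
    rw [← prod_mul_distrib]
    refine prod_congr rfl fun i _ => ?_
    rw [hr]
    beta_reduce
    have := (f_pos h1 (((i : ℝ) + 1) * t)).ne'
    have := (f_pos h2 (((i : ℝ) + 1) * t)).ne'
    field_simp
  rw [e]
  exact mul_le_mul_of_nonneg_right (hmono (by omega)) (P_pos h2 g).le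

/-- `(1 - y ^ 16) ≤ 16 (1 - y)` -/
lemma one_sub_exp (s : ℝ) : 1 - Real.exp (-(16 * s)) ≤ 16 * (1 - Real.exp (-s)) := by
  have e : Real.exp (-(16 * s)) = Real.exp (-s) ^ 16 := by
    rw [← Real.exp_nat_mul]
    congr 1
    push_cast
    ring
  rw [e]
  have h := one_add_mul_le_pow (a := Real.exp (-s) - 1)
    (by have := Real.exp_pos (-s); linarith) 16
  have e2 : 1 + (Real.exp (-s) - 1) = Real.exp (-s) := by ring
  rw [e2] at h
  push_cast at h
  linarith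

/-- STEP 3 -/
lemma core (hP : S_PROD) (hL : S_LIP) (hT : S_TRACE) {t δ c₁ : ℝ} (ht : Irrational t)
    {m : ℕ} {p : ℤ} (hc : IsCoprime p ((m + 1 : ℕ) : ℤ)) (hc1 : 10 ≤ c₁)
    (hδ : |((m + 1 : ℕ) : ℝ) * t - p| ≤ δ)
    (hblk : ∀ θ : ℝ, Real.log 2 ≤
      ∑ i ∈ range (m + 1), Real.log (f (c₁ / (m + 1 : ℕ)) (θ + i * t))) :
    ∑' n : ℕ, V (e t) n * Real.exp (-(c₁ / (m + 1 : ℕ) * n)) ≤
      1 / 4 * Real.exp (15 * c₁ * Real.exp (2 * Real.pi / (c₁ / (m + 1 : ℕ)) * δ)) *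
        ∑' n : ℕ, V (e t) n * Real.exp (-(16 * (c₁ / (m + 1 : ℕ)) * n)) := by
  have hm : (0 : ℝ) < ((m + 1 : ℕ) : ℝ) := by positivity
  set s₁ : ℝ := c₁ / (m + 1 : ℕ) with hs₁
  have h1 : 0 < s₁ := by positivity
  have h12 : s₁ ≤ 16 * s₁ := by linarith
  have h2 : 0 < 16 * s₁ := by linarith
  have hδ0 : 0 ≤ δ := (abs_nonneg _).trans hδ
  set E : ℝ := Real.exp (2 * Real.pi / s₁ * δ) with hE
  have hE1 : 1 ≤ E := Real.one_le_exp (by positivity)
  obtain ⟨_, b1, b2⟩ := hT t ht s₁ h1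
  obtain ⟨_, b3, b4⟩ := hT t ht (16 * s₁) h2
  have k1 := step1 h1 b1 (m + 1) hblk
  have k2 := sums_le (t := t) h1 h12 m
  have k3 := ratio hP hL hc h1 h12 hδ
  have q1 : ((m + 1 : ℕ) : ℝ) * (16 * s₁) = 16 * c₁ := by
    rw [hs₁]
    field_simp
  have q2 : ((m + 1 : ℕ) : ℝ) * s₁ = c₁ := by
    rw [hs₁]
    field_simp
  rw [q1, q2] at k3
  have k4 := R_le hc1 h1
  have p1 : 0 < 2 * Real.cosh s₁ - 2 := by linarith [Real.one_lt_cosh.2 h1.ne']
  have p2 : 0 < 2 * Real.cosh (16 * s₁) - 2 := by linarith [Real.one_lt_cosh.2 h2.ne']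
  have p3 : 0 < 2 * Real.cosh c₁ - 2 := by
    linarith [Real.one_lt_cosh.2 (show c₁ ≠ 0 by linarith)]
  have p4 : 0 < 2 * Real.cosh (16 * c₁) - 2 := by
    linarith [Real.one_lt_cosh.2 (show 16 * c₁ ≠ 0 by linarith)]
  have k5 : ((2 * Real.cosh (16 * c₁) - 2) / (2 * Real.cosh (16 * s₁) - 2) /
        ((2 * Real.cosh c₁ - 2) / (2 * Real.cosh s₁ - 2))) ^ E ≤
        Real.exp (15 * c₁ * E) / 128 := by
    refine (Real.rpow_le_rpow (by positivity) k4 (by linarith)).trans ?_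
    rw [Real.div_rpow (Real.exp_pos _).le (by norm_num), ← Real.exp_mul]
    have : (128 : ℝ) ≤ 128 ^ E := by
      calc (128 : ℝ) = 128 ^ (1 : ℝ) := (Real.rpow_one _).symm
        _ ≤ 128 ^ E := Real.rpow_le_rpow_of_exponent_le (by norm_num) hE1
    gcongr
  have k6 : ∑ g ∈ range (m + 1), P t (16 * s₁) g ≤ ∑' g, P t (16 * s₁) g :=
    Summable.sum_le_tsum _ (fun g _ => (P_pos h2 g).le) b3
  have k7 : ∑' g, P t s₁ g ≤
      2 * (Real.exp (15 * c₁ * E) / 128 * ∑' g, P t (16 * s₁) g) := by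
    have hS : 0 ≤ ∑ g ∈ range (m + 1), P t (16 * s₁) g := sum_nonneg fun g _ => (P_pos h2 g).le
    calc ∑' g, P t s₁ g ≤ 2 * ∑ g ∈ range (m + 1), P t s₁ g := k1
      _ ≤ 2 * ((∏ i ∈ range m, (f (16 * s₁) ((i + 1) * t) / f s₁ ((i + 1) * t))) *
        ∑ g ∈ range (m + 1), P t (16 * s₁) g) := by gcongr
      _ ≤ 2 * (Real.exp (15 * c₁ * E) / 128 * ∑' g, P t (16 * s₁) g) := by
        gcongr
        exact k3.trans k5
  have b2' : (1 - Real.exp (-s₁)) * ∑' n : ℕ, V (e t) n * Real.exp (-(s₁ * n)) =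
      ∑' g, P t s₁ g := b2
  have b4' : (1 - Real.exp (-(16 * s₁))) * ∑' n : ℕ, V (e t) n * Real.exp (-(16 * s₁ * n)) =
      ∑' g, P t (16 * s₁) g := b4
  rw [← b2', ← b4'] at k7
  have hy : 0 < 1 - Real.exp (-s₁) := by
    have : Real.exp (-s₁) < 1 := Real.exp_lt_one_iff.2 (by linarith)
    linarith
  set T₁ := ∑' n : ℕ, V (e t) n * Real.exp (-(s₁ * n))
  set T₂ := ∑' n : ℕ, V (e t) n * Real.exp (-(16 * s₁ * n)) with hT₂
  have hT0 : 0 ≤ T₂ := tsum_nonneg fun n =>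
    mul_nonneg (add_nonneg (sq_nonneg _) (sq_nonneg _)) (Real.exp_pos _).le
  have k8 : (1 - Real.exp (-(16 * s₁))) * T₂ ≤ 16 * (1 - Real.exp (-s₁)) * T₂ :=
    mul_le_mul_of_nonneg_right (one_sub_exp s₁) hT0
  have k9 : (1 - Real.exp (-s₁)) * T₁ ≤
      (1 - Real.exp (-s₁)) * (1 / 4 * Real.exp (15 * c₁ * E) * T₂) := by
    calc (1 - Real.exp (-s₁)) * T₁ ≤
        2 * (Real.exp (15 * c₁ * E) / 128 * ((1 - Real.exp (-(16 * s₁))) * T₂)) := k7
      _ ≤ 2 * (Real.exp (15 * c₁ * E) / 128 * (16 * (1 - Real.exp (-s₁)) * T₂)) := by gcongr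
      _ = (1 - Real.exp (-s₁)) * (1 / 4 * Real.exp (15 * c₁ * E) * T₂) := by ring
  exact le_of_mul_le_mul_left k9 hy

/-- the tail -/
lemma tail {v : ℕ → ℝ} (hv : ∀ n, 0 ≤ v n) {s₁ s₂ : ℝ} (h12 : s₁ ≤ s₂)
    (h1 : Summable fun n : ℕ => v n * Real.exp (-(s₁ * n)))
    (h2 : Summable fun n : ℕ => v n * Real.exp (-(s₂ * n))) (D : ℕ) :
    ∑' n : ℕ, v n * Real.exp (-(s₂ * n)) ≤
      ∑ n ∈ range D, v n * Real.exp (-(s₂ * n)) +
        Real.exp (-((s₂ - s₁) * D)) * ∑' n : ℕ, v n * Real.exp (-(s₁ * n)) := by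
  have k1 := h2.sum_add_tsum_nat_add D
  rw [← k1]
  have k2 : ∑' n : ℕ, v (n + D) * Real.exp (-(s₂ * ((n + D : ℕ) : ℝ))) ≤
      ∑' n : ℕ, Real.exp (-((s₂ - s₁) * D)) *
        (v (n + D) * Real.exp (-(s₁ * ((n + D : ℕ) : ℝ)))) := by
    refine ((summable_nat_add_iff D).2 h2).tsum_le_tsum (fun n => ?_)
      (((summable_nat_add_iff D).2 h1).mul_left _)
    have e : Real.exp (-(s₂ * ((n + D : ℕ) : ℝ))) = Real.exp (-((s₂ - s₁) * ((n + D : ℕ) : ℝ))) *
        Real.exp (-(s₁ * ((n + D : ℕ) : ℝ))) := by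
      rw [← Real.exp_add]
      ring_nf
    rw [e]
    have h3 : Real.exp (-((s₂ - s₁) * ((n + D : ℕ) : ℝ))) ≤ Real.exp (-((s₂ - s₁) * D)) := by
      refine Real.exp_le_exp.2 (neg_le_neg ?_)
      have : (D : ℝ) ≤ ((n + D : ℕ) : ℝ) := by exact_mod_cast Nat.le_add_left D n
      exact mul_le_mul_of_nonneg_left this (by linarith)
    have h4 : 0 ≤ v (n + D) * Real.exp (-(s₁ * ((n + D : ℕ) : ℝ))) :=
      mul_nonneg (hv _) (Real.exp_pos _).le
    calc v (n + D) * (Real.exp (-((s₂ - s₁) * ((n + D : ℕ) : ℝ))) *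
        Real.exp (-(s₁ * ((n + D : ℕ) : ℝ)))) =
        Real.exp (-((s₂ - s₁) * ((n + D : ℕ) : ℝ))) *
          (v (n + D) * Real.exp (-(s₁ * ((n + D : ℕ) : ℝ)))) := by ring
      _ ≤ _ := mul_le_mul_of_nonneg_right h3 h4
  have k3 : ∑' n : ℕ, v (n + D) * Real.exp (-(s₁ * ((n + D : ℕ) : ℝ))) ≤
      ∑' n : ℕ, v n * Real.exp (-(s₁ * n)) := by
    have k4 := h1.sum_add_tsum_nat_add D
    have : 0 ≤ ∑ n ∈ range D, v n * Real.exp (-(s₁ * n)) :=
      sum_nonneg fun n _ => mul_nonneg (hv _) (Real.exp_pos _).le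
    linarith
  rw [tsum_mul_left] at k2
  have k5 : Real.exp (-((s₂ - s₁) * D)) *
      ∑' n : ℕ, v (n + D) * Real.exp (-(s₁ * ((n + D : ℕ) : ℝ))) ≤
      Real.exp (-((s₂ - s₁) * D)) * ∑' n : ℕ, v n * Real.exp (-(s₁ * n)) :=
    mul_le_mul_of_nonneg_left k3 (Real.exp_pos _).le
  linarith

/-- the growth of the denominators -/
lemma le_q {t : ℝ} {q : ℕ → ℕ} {p : ℕ → ℤ} (hA : Appr t q p) (k : ℕ) : k < q k := by
  induction k with
  | zero => rw [hA.q0]; omega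
  | succ k ih =>
    have := hA.mono (Nat.lt_succ_self k)
    have h2 : q k < q (k + 1) := this
    omega

/-- the localisation for one denominator -/
lemma loc (hT : S_TRACE) (hP : S_PROD) (hL : S_LIP) {t C₀ A c₁ : ℝ} (ht : Irrational t)
    {q : ℕ → ℕ} {p : ℕ → ℤ} (hAp : Appr t q p)
    (hB : ∀ k : ℕ, (∀ j < k, (q (j + 1) : ℝ) / q j ≤ A * ((q (k + 1) : ℝ) / q k)) →
      ∀ r : ℝ, 1 ≤ r → r ≤ q k → ∀ θ : ℝ,
      Real.log (2 * Real.cosh r - 2) - C₀ * A ≤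
        ∑ i ∈ range (q k), Real.log (f (r / q k) (θ + i * t)))
    (hc1 : 10 ≤ c₁) (hc2 : Real.log 2 ≤ Real.log (2 * Real.cosh c₁ - 2) - C₀ * A) (k D : ℕ)
    (hk : ∀ j < k, (q (j + 1) : ℝ) / q j ≤ A * ((q (k + 1) : ℝ) / q k)) (hq : c₁ ≤ q k)
    (hD : 15 * c₁ * Real.exp (2 * Real.pi / (c₁ / q k) * (1 / q (k + 1))) -
      15 * (c₁ / q k) * D ≤ Real.log 2) :
    ∑' n : ℕ, V (e t) n * Real.exp (-(16 * (c₁ / q k) * n)) ≤
      2 * ∑ n ∈ range D, V (e t) n * Real.exp (-(16 * (c₁ / q k) * n)) := by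
  have hblk : ∀ θ : ℝ, Real.log 2 ≤ ∑ i ∈ range (q k), Real.log (f (c₁ / q k) (θ + i * t)) :=
    fun θ => hc2.trans (hB k hk c₁ (by linarith) hq θ)
  obtain ⟨m, hm⟩ : ∃ m, q k = m + 1 := ⟨q k - 1, by have := le_q hAp k; omega⟩
  have hcop := hAp.cop k
  have herr := hAp.err k
  rw [hm] at hblk hcop herr hD ⊢
  have hcore := core hP hL hT ht hcop hc1 herr hblk
  have hm0 : (0 : ℝ) < ((m + 1 : ℕ) : ℝ) := by positivity
  set s₁ : ℝ := c₁ / (m + 1 : ℕ) with hs₁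
  have h1 : 0 < s₁ := by positivity
  have h2 : 0 < 16 * s₁ := by linarith
  have hV : ∀ n, 0 ≤ V (e t) n := fun n => add_nonneg (sq_nonneg _) (sq_nonneg _)
  have b1 := (hT t ht s₁ h1).1
  have b2 := (hT t ht (16 * s₁) h2).1
  have htail := tail hV (show s₁ ≤ 16 * s₁ by linarith) b1 b2 D
  set T₁ := ∑' n : ℕ, V (e t) n * Real.exp (-(s₁ * n))
  set T₂ := ∑' n : ℕ, V (e t) n * Real.exp (-(16 * s₁ * n)) with hT₂
  set E : ℝ := Real.exp (2 * Real.pi / s₁ * (1 / (q (k + 1) : ℝ)))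
  have hT0 : 0 ≤ T₂ := tsum_nonneg fun n => mul_nonneg (hV n) (Real.exp_pos _).le
  have k1 : Real.exp (-((16 * s₁ - s₁) * D)) * T₁ ≤ 1 / 2 * T₂ := by
    have k2 : Real.exp (-((16 * s₁ - s₁) * D)) * Real.exp (15 * c₁ * E) ≤ 2 := by
      rw [← Real.exp_add, ← Real.exp_log (show (0 : ℝ) < 2 by norm_num)]
      refine Real.exp_le_exp.2 ?_
      linarith
    calc Real.exp (-((16 * s₁ - s₁) * D)) * T₁ ≤
          Real.exp (-((16 * s₁ - s₁) * D)) * (1 / 4 * Real.exp (15 * c₁ * E) * T₂) := by gcongr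
      _ = 1 / 4 * (Real.exp (-((16 * s₁ - s₁) * D)) * Real.exp (15 * c₁ * E)) * T₂ := by ring
      _ ≤ 1 / 4 * 2 * T₂ := by gcongr
      _ = 1 / 2 * T₂ := by ring
  linarith

lemma choose_k {r : ℕ → ℝ} (hub : ∀ M : ℝ, ∃ k, M < r k) (M : ℝ) (N : ℕ) :
    ∃ k, N ≤ k ∧ M ≤ r k ∧ ∀ j < k, r j ≤ r k := by
  classical
  set M' : ℝ := max M (∑ j ∈ range N, |r j|) with hM'
  have hex := hub M'
  refine ⟨Nat.find hex, ?_, ?_, ?_⟩
  · by_contra hlt
    push Not at hlt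
    have h1 := Nat.find_spec hex
    have h2 : |r (Nat.find hex)| ≤ ∑ j ∈ range N, |r j| :=
      single_le_sum (f := fun j => |r j|) (fun j _ => abs_nonneg (r j)) (mem_range.2 hlt)
    have h3 := le_abs_self (r (Nat.find hex))
    have h4 : ∑ j ∈ range N, |r j| ≤ M' := le_max_right _ _
    linarith
  · exact (le_max_left _ _).trans (Nat.find_spec hex).le
  · intro j hj
    have h1 := Nat.find_min hex hj
    push Not at h1
    exact h1.trans (Nat.find_spec hex).le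

lemma choose_c (B : ℝ) : ∃ c : ℝ, 10 ≤ c ∧ B ≤ Real.log (2 * Real.cosh c - 2) := by
  refine ⟨max 10 (B + Real.log 2), le_max_left _ _, ?_⟩
  set c := max 10 (B + Real.log 2) with hc
  have h10 : 10 ≤ c := le_max_left _ _
  have hB : B + Real.log 2 ≤ c := le_max_right _ _
  have a2 : Real.exp c / 2 ≤ 2 * Real.cosh c - 2 := by
    rw [Real.cosh_eq]
    have h1 := Real.add_one_le_exp c
    have h2 := Real.exp_pos (-c)
    linarith
  have h3 : Real.log (Real.exp c / 2) = c - Real.log 2 := by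
    rw [Real.log_div (Real.exp_pos _).ne' two_ne_zero, Real.log_exp]
  have h4 : Real.log (Real.exp c / 2) ≤ Real.log (2 * Real.cosh c - 2) :=
    Real.log_le_log (by positivity) a2
  linarith

/-- MASS -/
theorem t_MASS (hB : S_BLOCK) (hT : S_TRACE) (hP : S_PROD) (hL : S_LIP) (hC : S_CF) : S_MASS := by
  intro t ht
  obtain ⟨C₀, hC₀, hB⟩ := hB
  obtain ⟨q, p, hA⟩ := hC t ht
  have hq0 : ∀ k, (0 : ℝ) < q k := fun k => by
    have := le_q hA k
    exact_mod_cast (by omega : 0 < q k)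
  have hqk : ∀ k : ℕ, (k : ℝ) ≤ q k := fun k => by exact_mod_cast (le_q hA k).le
  have hr1 : ∀ k, 1 ≤ (q (k + 1) : ℝ) / q k := fun k => by
    rw [one_le_div (hq0 k)]
    exact_mod_cast (hA.mono (Nat.lt_succ_self k)).le
  have hpi := Real.pi_lt_d2
  have hpi0 := Real.pi_pos
  have hlog := Real.log_two_gt_d9
  have hlog0 : (0 : ℝ) ≤ Real.log 2 := by linarith
  -- the exponent
  have hx : ∀ (c₁ : ℝ) (k : ℕ), 10 ≤ c₁ → 2 * Real.pi / (c₁ / q k) * (1 / q (k + 1)) =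
      2 * Real.pi / (c₁ * ((q (k + 1) : ℝ) / q k)) := by
    intro c₁ k hc
    have h1 := hq0 k
    have h2 := hq0 (k + 1)
    have h3 : 0 < c₁ := by linarith
    field_simp
  by_cases hub : ∀ M : ℝ, ∃ k, M < (q (k + 1) : ℝ) / q k
  · obtain ⟨c₁, hc1, hc2⟩ := choose_c (Real.log 2 + C₀ * 1)
    have hc0 : 0 < c₁ := by linarith
    refine ⟨16 * c₁, by linarith, fun ε hε => ?_⟩
    obtain ⟨N, hN⟩ := exists_nat_ge (max c₁ (16 * c₁ / ε + 1))
    obtain ⟨k, hNk, hk1, hk2⟩ := choose_k hub 400 N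
    have hNk' : (N : ℝ) ≤ k := by exact_mod_cast hNk
    have hq1 : c₁ ≤ q k := (le_max_left _ _).trans (hN.trans (hNk'.trans (hqk k)))
    have hq2 : 16 * c₁ / ε + 1 ≤ q k := (le_max_right _ _).trans (hN.trans (hNk'.trans (hqk k)))
    have hqp := hq0 k
    have hqp1 := hq0 (k + 1)
    refine ⟨16 * (c₁ / q k), q k, q k, p k, by positivity, ?_, by exact_mod_cast hqp, le_rfl,
      hA.cop k, ?_, ?_, ?_⟩
    · have h1 : 16 * c₁ / ε < q k := by linarith
      rw [div_lt_iff₀ hε] at h1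
      rw [← mul_div_assoc, div_lt_iff₀ hqp]
      linarith
    · have h1 := hA.err k
      have h2 : 400 * (q k : ℝ) ≤ q (k + 1) := by
        rw [le_div_iff₀ hqp] at hk1
        exact hk1
      calc 100 * (q k : ℝ) * |(q k : ℝ) * t - p k| ≤ 100 * (q k : ℝ) * (1 / q (k + 1)) := by gcongr
        _ = 100 * (q k : ℝ) / q (k + 1) := by ring
        _ ≤ 1 := by
          rw [div_le_one hqp1]
          linarith
    · have : 16 * (c₁ / q k) * q k = 16 * c₁ := by field_simp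
      rw [this]
    · refine loc hT hP hL ht hA (A := 1) (C₀ := C₀) (fun k hk r h1 h2 θ =>
        hB t q p hA 1 le_rfl k hk r h1 h2 θ) hc1 (by linarith) k (q k) ?_ hq1 ?_
      · intro j hj
        rw [one_mul]
        exact hk2 j hj
      · rw [hx c₁ k hc1]
        set r : ℝ := (q (k + 1) : ℝ) / q k with hr
        have hx0 : 0 ≤ 2 * Real.pi / (c₁ * r) := by positivity
        have hx1 : 2 * Real.pi / (c₁ * r) ≤ 1 := by
          rw [div_le_one (by positivity)]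
          nlinarith
        have h1 := Real.abs_exp_sub_one_le (x := 2 * Real.pi / (c₁ * r))
          (by rw [abs_of_nonneg hx0]; exact hx1)
        rw [abs_of_nonneg hx0] at h1
        have h2 := le_abs_self (Real.exp (2 * Real.pi / (c₁ * r)) - 1)
        have e1 : 15 * (c₁ / q k) * (q k : ℝ) = 15 * c₁ := by field_simp
        rw [e1]
        have h3 : 15 * c₁ * (Real.exp (2 * Real.pi / (c₁ * r)) - 1) ≤
            15 * c₁ * (2 * (2 * Real.pi / (c₁ * r))) :=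
          mul_le_mul_of_nonneg_left (h2.trans h1) (by positivity)
        have e2 : 15 * c₁ * (2 * (2 * Real.pi / (c₁ * r))) = 60 * Real.pi / r := by
          field_simp
          ring
        have h4 : 60 * Real.pi / r ≤ 60 * Real.pi / 400 := by gcongr
        rw [e2] at h3
        linarith
  · push Not at hub
    obtain ⟨M, hM⟩ := hub
    set A : ℝ := max M 1 with hAdef
    have hA1 : 1 ≤ A := le_max_right _ _
    have hrA : ∀ k, (q (k + 1) : ℝ) / q k ≤ A := fun k => (hM k).trans (le_max_left _ _)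
    obtain ⟨c₁, hc1, hc2⟩ := choose_c (Real.log 2 + C₀ * A)
    have hc0 : 0 < c₁ := by linarith
    refine ⟨4800 * A * c₁, by positivity, fun ε hε => ?_⟩
    obtain ⟨k, hN⟩ := exists_nat_ge (max c₁ (16 * c₁ / ε + 1))
    have hq1 : c₁ ≤ q k := (le_max_left _ _).trans (hN.trans (hqk k))
    have hq2 : 16 * c₁ / ε + 1 ≤ q k := (le_max_right _ _).trans (hN.trans (hqk k))
    have hqp := hq0 k
    -- the second denominator
    have hex : ∃ j, 300 * q k ≤ q j := ⟨300 * q k, (le_q hA _).le⟩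
    classical
    obtain ⟨j, hj1, hj2⟩ : ∃ j, 300 * q k ≤ q (j + 1) ∧ q j < 300 * q k := by
      obtain ⟨j, hj⟩ : ∃ j, Nat.find hex = j + 1 := by
        refine ⟨Nat.find hex - 1, ?_⟩
        have h0 : Nat.find hex ≠ 0 := by
          intro h0
          have := Nat.find_spec hex
          rw [h0, hA.q0] at this
          have := le_q hA k
          omega
        omega
      refine ⟨j, ?_, ?_⟩
      · rw [← hj]
        exact Nat.find_spec hex
      · have := Nat.find_min hex (m := j) (by omega)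
        omega
    have hj1' : 300 * (q k : ℝ) ≤ q (j + 1) := by exact_mod_cast hj1
    have hj2' : (q j : ℝ) ≤ 300 * q k := by exact_mod_cast hj2.le
    have hqj := hq0 j
    have hqj1 := hq0 (j + 1)
    have hqj2 := hq0 (j + 1 + 1)
    have hj3 : (q (j + 1) : ℝ) ≤ A * (300 * q k) := by
      have := hrA j
      rw [div_le_iff₀ hqj] at this
      exact this.trans (by gcongr)
    refine ⟨16 * (c₁ / q k), 3 * q k, q (j + 1), p (j + 1), by positivity, ?_,
      by exact_mod_cast hqj1, by omega, hA.cop (j + 1), ?_, ?_, ?_⟩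
    · have h1 : 16 * c₁ / ε < q k := by linarith
      rw [div_lt_iff₀ hε] at h1
      rw [← mul_div_assoc, div_lt_iff₀ hqp]
      linarith
    · have h1 := hA.err (j + 1)
      have h2 : (q (j + 1) : ℝ) ≤ q (j + 1 + 1) := by
        exact_mod_cast (hA.mono (Nat.lt_succ_self (j + 1))).le
      calc 100 * ((3 * q k : ℕ) : ℝ) * |(q (j + 1) : ℝ) * t - p (j + 1)| ≤
          100 * ((3 * q k : ℕ) : ℝ) * (1 / q (j + 1 + 1)) := by gcongr
        _ = 300 * (q k : ℝ) / q (j + 1 + 1) := by push_cast; ring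
        _ ≤ 1 := by
          rw [div_le_one hqj2]
          linarith
    · calc 16 * (c₁ / q k) * (q (j + 1) : ℝ) ≤ 16 * (c₁ / q k) * (A * (300 * q k)) := by gcongr
        _ = 4800 * A * c₁ := by field_simp; ring
    · refine loc hT hP hL ht hA (A := A) (C₀ := C₀) (fun k hk r h1 h2 θ =>
        hB t q p hA A hA1 k hk r h1 h2 θ) hc1 (by linarith) k (3 * q k) ?_ hq1 ?_
      · intro j _
        have h1 := hrA j
        have h2 := hr1 k
        have h3 : A * 1 ≤ A * ((q (k + 1) : ℝ) / q k) := by gcongr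
        linarith
      · rw [hx c₁ k hc1]
        set r : ℝ := (q (k + 1) : ℝ) / q k with hr
        have hr0 : 1 ≤ r := hr1 k
        have hx1 : 2 * Real.pi / (c₁ * r) ≤ Real.log 2 := by
          rw [div_le_iff₀ (by positivity)]
          have : 10 * 1 ≤ c₁ * r := mul_le_mul hc1 hr0 (by norm_num) hc0.le
          nlinarith
        have h1 : Real.exp (2 * Real.pi / (c₁ * r)) ≤ 2 := by
          calc Real.exp (2 * Real.pi / (c₁ * r)) ≤ Real.exp (Real.log 2) := Real.exp_le_exp.2 hx1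
            _ = 2 := Real.exp_log two_pos
        have e1 : 15 * (c₁ / q k) * ((3 * q k : ℕ) : ℝ) = 45 * c₁ := by
          push_cast
          field_simp
          ring
        rw [e1]
        have h2 : 15 * c₁ * Real.exp (2 * Real.pi / (c₁ * r)) ≤ 15 * c₁ * 2 := by gcongr
        linarith

end Pool.Agent.Y691.RR
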